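import Pool.Agent.W2helper5.QD.Stm

/-!
# Project QD, piece COUNT: counting the zeros
-/

set_option autoImplicit false

open Set Pool.Agent.W2helper5.QD

namespace Pool.Agent.W2helper88.QD

theorem per {G0 : ℝ → ℝ} {s : ℝ} (h : ∀ θ, G0 (θ + s) = -G0 θ) (j : ℤ) (θ : ℝ) :
    G0 (θ + j * s) = (-1 : ℝ) ^ j * G0 θ := by
  induction j using Int.induction_on with
  | zero => simp
  | succ i ih =>
    have h1 : θ + ((i : ℤ) + 1 : ℤ) * s = (θ + ((i : ℤ) : ℝ) * s) + s := by push_cast; ring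
    rw [h1, h, ih, zpow_add₀ (by norm_num : (-1 : ℝ) ≠ 0), zpow_one]
    ring
  | pred i ih =>
    have h1 : θ + ((-(i : ℤ) : ℤ) : ℝ) * s = (θ + ((-(i : ℤ) - 1 : ℤ) : ℝ) * s) + s := by
      push_cast; ring
    rw [h1, h] at ih
    rw [zpow_sub₀ (by norm_num : (-1 : ℝ) ≠ 0), zpow_one]
    have h2 : G0 (θ + ((-(i : ℤ) - 1 : ℤ) : ℝ) * s) = -((-1 : ℝ) ^ (-(i : ℤ)) * G0 θ) := by
      linarith
    rw [h2]
    ring

theorem pm (j : ℤ) : (-1 : ℝ) ^ j = 1 ∨ (-1 : ℝ) ^ j = -1 := by
  rcases Int.even_or_odd j with h | h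
  · left; exact h.neg_one_zpow
  · right; exact h.neg_one_zpow

/-- the sign of `G1` between the zeros -/
theorem sgn {s δ μ : ℝ} {G0 G1 : ℝ → ℝ} (hp : ∀ θ, G0 (θ + s) = -G0 θ)
    (hn : ∀ θ, δ ≤ θ → θ ≤ s - δ → G0 θ ≤ -μ) (hd : ∀ θ, |G1 θ - G0 θ| < μ) (j : ℤ) (θ : ℝ)
    (h1 : j * s + δ ≤ θ) (h2 : θ ≤ j * s + s - δ) : (-1 : ℝ) ^ j * G1 θ < 0 := by
  have h3 := per hp j (θ - j * s)
  rw [sub_add_cancel] at h3
  have h4 := hn (θ - j * s) (by linarith) (by linarith)
  have h5 := abs_lt.mp (hd θ)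
  rcases pm j with h | h <;> rw [h] at h3 ⊢ <;> linarith [h5.1, h5.2]

theorem COUNT : P_COUNT := by
  intro m s δ μ G0 G1 hs hδ hδs hμ hc hp hn hd hinj
  have hz : ∀ j : ℤ, ∃ z, z ∈ Icc (j * s - δ) (j * s + δ) ∧ G1 z = 0 := by
    intro j
    have h1 := sgn hp hn hd j (j * s + δ) le_rfl (by linarith)
    have h2 := sgn hp hn hd (j - 1) (j * s - δ) (by push_cast; linarith) (by push_cast; linarith)
    rw [zpow_sub₀ (by norm_num : (-1 : ℝ) ≠ 0), zpow_one] at h2
    rcases pm j with h | h <;> rw [h] at h1 h2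
    · have h3 : (0 : ℝ) ∈ Icc (G1 (j * s + δ)) (G1 (j * s - δ)) := ⟨by linarith, by linarith⟩
      obtain ⟨z, hz, hz'⟩ := intermediate_value_Icc' (by linarith) hc.continuousOn h3
      exact ⟨z, hz, hz'⟩
    · have h3 : (0 : ℝ) ∈ Icc (G1 (j * s - δ)) (G1 (j * s + δ)) := ⟨by linarith, by linarith⟩
      obtain ⟨z, hz, hz'⟩ := intermediate_value_Icc (by linarith) hc.continuousOn h3
      exact ⟨z, hz, hz'⟩
  choose z hz hz' using hz
  have himg : {θ : ℝ | -(s / 2) ≤ θ ∧ θ < -(s / 2) + m * s ∧ G1 θ = 0} =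
      (fun j : ℕ => z (j : ℤ)) '' (Finset.range m : Set ℕ) := by
    ext θ
    simp only [mem_ofPred_eq, mem_image, Finset.coe_range, mem_Iio]
    constructor
    · rintro ⟨h1, h2, h3⟩
      set j : ℤ := ⌊θ / s + 1 / 2⌋ with hj
      have h4 : (j : ℝ) ≤ θ / s + 1 / 2 := Int.floor_le _
      have h5 : θ / s + 1 / 2 < j + 1 := Int.lt_floor_add_one _
      have h6 : j * s ≤ θ + s / 2 := by
        have := mul_le_mul_of_nonneg_right h4 hs.le
        have e : (θ / s + 1 / 2) * s = θ + s / 2 := by field_simp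
        linarith
      have h7 : θ + s / 2 < j * s + s := by
        have := mul_lt_mul_of_pos_right h5 hs
        have e : (θ / s + 1 / 2) * s = θ + s / 2 := by field_simp
        linarith
      have hj0 : 0 ≤ j := by
        have : (-1 : ℝ) < j := by
          by_contra hcon
          have := mul_le_mul_of_nonneg_right (not_lt.mp hcon) hs.le
          linarith
        have : (-1 : ℤ) < j := by exact_mod_cast this
        omega
      have hjm : j < m := by
        have : (j : ℝ) < m := by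
          by_contra hcon
          have := mul_le_mul_of_nonneg_right (not_lt.mp hcon) hs.le
          linarith
        exact_mod_cast this
      obtain ⟨i, hi⟩ := Int.eq_ofNat_of_zero_le hj0
      refine ⟨i, by rw [hi] at hjm; exact_mod_cast hjm, ?_⟩
      rw [← hi]
      refine hinj j (hz j) ⟨?_, ?_⟩ ((hz' j).trans h3.symm)
      · by_contra hcon
        have h8 := sgn hp hn hd (j - 1) θ (by push_cast; linarith) (by push_cast; linarith)
        rw [h3, mul_zero] at h8
        exact lt_irrefl _ h8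
      · by_contra hcon
        have h8 := sgn hp hn hd j θ (by linarith) (by linarith)
        rw [h3, mul_zero] at h8
        exact lt_irrefl _ h8
    · rintro ⟨i, hi, rfl⟩
      have h1 := hz (i : ℤ)
      rw [mem_Icc] at h1
      push_cast at h1
      have h2 : (0 : ℝ) ≤ (i : ℝ) * s := by positivity
      have h3 : (i : ℝ) + 1 ≤ m := by exact_mod_cast hi
      have h4 := mul_le_mul_of_nonneg_right h3 hs.le
      exact ⟨by linarith [h1.1], by linarith [h1.2], hz' _⟩
  rw [himg, InjOn.encard_image, encard_coe_eq_coe_finsetCard, Finset.card_range]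
  intro i _ j _ hij
  have h1 := hz (i : ℤ)
  have h2 := hz (j : ℤ)
  simp only at hij
  rw [hij] at h1
  rw [mem_Icc] at h1 h2
  push_cast at h1 h2
  by_contra hne
  rcases Nat.lt_or_gt_of_ne hne with h | h
  · have h3 : (i : ℝ) + 1 ≤ j := by exact_mod_cast h
    have h4 := mul_le_mul_of_nonneg_right h3 hs.le
    linarith [h1.2, h2.1]
  · have h3 : (j : ℝ) + 1 ≤ i := by exact_mod_cast h
    have h4 := mul_le_mul_of_nonneg_right h3 hs.le
    linarith [h1.1, h2.2]

end Pool.Agent.W2helper88.QD
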