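import Pool.Agent.W2helper5.QD.Stm

/-!
# Project QD, piece TOP: the bisectors at angle 0 and the top edge
-/

set_option autoImplicit false

open Set MeasureTheory Pool.V11275.Quad Pool.Agent.W2helper5.QD
open Pool.Agent.Helper717.Hull1 Pool.Agent.Helper717.Hull2

namespace Pool.Agent.W2helper88.QD

theorem hh_mul {R : Set E2} {α : ℝ} (h : ∀ θ, hh R (θ + α) = -hh R θ) (i : ℕ) (θ : ℝ) :
    hh R (θ + 2 * i * α) = hh R θ := by
  induction i with
  | zero => simp
  | succ i ih =>
    have h1 : θ + 2 * ((i + 1 : ℕ) : ℝ) * α = (θ + 2 * i * α) + α + α := by push_cast; ring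
    rw [h1, h, h, neg_neg, ih]

theorem al_mul (m : ℕ) (hm : 5 ≤ m) : (m : ℝ) * al m = Real.pi := by
  have : (m : ℝ) ≠ 0 := by
    have : m ≠ 0 := by omega
    exact_mod_cast this
  unfold al
  field_simp

/-- the angle of the normal of the top edge -/
theorem angle (m i : ℕ) (hi : i = m / 4) (hm : 5 ≤ m) (hodd : m % 2 = 1) :
    (2 * ((i : ℤ) : ℝ) + 1) * al m = Real.pi / 2 + sg m * (al m / 2) := by
  have h := al_mul m hm
  unfold sg
  by_cases h1 : m % 4 = 1
  · rw [if_pos h1]
    have h2 : m = 4 * i + 1 := by omega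
    have h3 : (m : ℝ) = 4 * (i : ℝ) + 1 := by exact_mod_cast h2
    rw [h3] at h
    push_cast
    linarith
  · rw [if_neg h1]
    have h2 : m = 4 * i + 3 := by omega
    have h3 : (m : ℝ) = 4 * (i : ℝ) + 3 := by exact_mod_cast h2
    rw [h3] at h
    push_cast
    linarith

theorem TOP : P_TOP := by
  intro _ _ hBASIC hREG hSYMG hPSYM hT1 hBIS m hm hodd
  have hps := hPSYM hBASIC hREG hSYMG m (by omega) hodd
  obtain ⟨hB, _, _, hedge, hsec, _, hrfl⟩ := hREG m (by omega)
  obtain ⟨_, _, _, hpi, _, _⟩ := hBASIC (P m) hB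
  have hal := al_mul m hm
  have hpos : 0 < Real.pi := Real.pi_pos
  set α := al m with hα
  have hα0 : 0 < α := by
    rw [hα]; unfold al; positivity
  have hα5 : α ≤ Real.pi / 5 := by
    rw [hα]; unfold al
    have : (5 : ℝ) ≤ m := by exact_mod_cast hm
    exact div_le_div_of_nonneg_left hpos.le (by norm_num) this
  obtain ⟨hT, hxi0, hxi⟩ := hT1 α hα0 hα5
  have hs : 0 < Real.sin (α / 2) := Real.sin_pos_of_pos_of_lt_pi (by linarith) (by linarith)
  have hc : 0 < Real.cos (α / 2) := Real.cos_pos_of_mem_Ioo ⟨by linarith, by linarith⟩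
  have hcα : 0 < Real.cos α := Real.cos_pos_of_mem_Ioo ⟨by linarith, by linarith⟩
  have hs3 : 0 < Real.sin (3 * α / 2) :=
    Real.sin_pos_of_pos_of_lt_pi (by linarith) (by linarith)
  have hc3 : 0 < Real.cos (3 * α / 2) := Real.cos_pos_of_mem_Ioo ⟨by linarith, by linarith⟩
  have hxis : xi α ≤ Real.sin (α / 2) := by
    have h1 : (1 - Real.cos α) / 4 ≤ 1 := by linarith
    calc xi α ≤ (1 - Real.cos α) / 4 * Real.sin (α / 2) := hxi
      _ ≤ 1 * Real.sin (α / 2) := mul_le_mul_of_nonneg_right h1 hs.le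
      _ = _ := one_mul _
  have hy0 : y0 α * Real.cos (α / 2) = Real.cos α + xi α * Real.sin (α / 2) := by
    unfold y0
    field_simp
  have hy0pos : 0 < y0 α := by
    have : 0 < y0 α * Real.cos (α / 2) := by rw [hy0]; positivity
    exact (pos_iff_pos_of_mul_pos this).mpr hc
  have hcos2 : Real.cos α = Real.cos (α / 2) ^ 2 - Real.sin (α / 2) ^ 2 := by
    have := Real.cos_sq' (α / 2)
    have h2 : Real.cos α = 2 * Real.cos (α / 2) ^ 2 - 1 := by
      rw [← Real.cos_two_mul]; congr 1; ring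
    rw [h2]; linarith
  have hkey : xi α * Real.cos (α / 2) ≤ y0 α * Real.sin (α / 2) := by
    have h1 : (y0 α * Real.sin (α / 2) - xi α * Real.cos (α / 2)) * Real.cos (α / 2) =
        Real.cos α * (Real.sin (α / 2) - xi α) := by
      have : (y0 α * Real.sin (α / 2) - xi α * Real.cos (α / 2)) * Real.cos (α / 2) =
        (y0 α * Real.cos (α / 2)) * Real.sin (α / 2) - xi α * Real.cos (α / 2) ^ 2 := by ring
      rw [this, hy0]
      linear_combination (xi α) * hcos2
    have h2 : 0 ≤ (y0 α * Real.sin (α / 2) - xi α * Real.cos (α / 2)) * Real.cos (α / 2) := by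
      rw [h1]
      exact mul_nonneg hcα.le (by linarith)
    have h3 := nonneg_of_mul_nonneg_left h2 hc
    linarith
  -- the bisector of angle π/2
  have hhalf : hh (P m) (Real.pi / 2) = 0 := by
    have h1 := (hps (Real.pi / 2)).1
    have h2 := hpi (-(Real.pi / 2))
    have h3 : -(Real.pi / 2) + Real.pi = Real.pi / 2 := by ring
    rw [h3, h1] at h2
    linarith
  -- the bisector of angle 0
  have hbis := (hBIS ‹_› ‹_› hBASIC hREG hSYMG hPSYM hT1 m hm hodd (α / 2) (by linarith)
    (by rw [← hα])).1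
  have hx : -(x1 (al m) (α / 2) * Real.sin (α / 2)) = -xi α := rfl
  rw [hx] at hbis
  have h1 : hh (P m) (Real.pi / 2 - α / 2) = xi α := by
    have e1 := (hps (Real.pi / 2 - α / 2)).1
    have e2 := hpi (-(Real.pi / 2 - α / 2))
    have e3 : -(Real.pi / 2 - α / 2) + Real.pi = α / 2 + Real.pi / 2 := by ring
    rw [e3, hbis, e1] at e2
    linarith
  have h0 : hh (P m) 0 = sg m * xi α := by
    unfold sg
    by_cases h4 : m % 4 = 1
    · rw [if_pos h4]
      have h2 : m = 4 * (m / 4) + 1 := by omega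
      have h3 : (m : ℝ) = 4 * ((m / 4 : ℕ) : ℝ) + 1 := by exact_mod_cast h2
      rw [h3] at hal
      have e1 : Real.pi / 2 - α / 2 = 0 + 2 * ((m / 4 : ℕ) : ℝ) * α := by linarith
      rw [e1, hh_mul (fun θ => (hps θ).2.1)] at h1
      rw [h1, one_mul]
    · rw [if_neg h4]
      have h2 : m = 4 * (m / 4) + 3 := by omega
      have h3 : (m : ℝ) = 4 * ((m / 4 : ℕ) : ℝ) + 3 := by exact_mod_cast h2
      rw [h3] at hal
      have e1 : Real.pi / 2 - α / 2 = 0 + α + 2 * ((m / 4 : ℕ) : ℝ) * α := by linarith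
      rw [e1, hh_mul (fun θ => (hps θ).2.1), (hps 0).2.1] at h1
      linarith
  obtain ⟨i, hi⟩ : ∃ i : ℕ, i = m / 4 := ⟨_, rfl⟩
  have hang := angle m i hi hm hodd
  rw [← hα] at hang
  have hsg : sg m = 1 ∨ sg m = -1 := by
    unfold sg
    split_ifs
    · left; rfl
    · right; rfl
  have hcosn : Real.cos (Real.pi / 2 + sg m * (α / 2)) = -(sg m * Real.sin (α / 2)) := by
    rcases hsg with h | h
    · rw [h, one_mul, one_mul, add_comm, Real.cos_add_pi_div_two]
    · rw [h, neg_one_mul, add_comm, Real.cos_add_pi_div_two, Real.sin_neg]; ring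
  have hsinn : Real.sin (Real.pi / 2 + sg m * (α / 2)) = Real.cos (α / 2) := by
    rcases hsg with h | h
    · rw [h, one_mul, add_comm, Real.sin_add_pi_div_two]
    · rw [h, neg_one_mul, add_comm, Real.sin_add_pi_div_two, Real.cos_neg]
  have htop : ∀ x ∈ P m, x 1 * Real.cos (α / 2) ≤
      Real.cos α + sg m * Real.sin (α / 2) * x 0 := by
    intro x hx
    have e1 := hedge (i : ℤ) x hx
    rw [hang] at e1
    simp only [dot, e_zero', e_one', hcosn, hsinn] at e1
    linarith
  have hmem : (!₂[sg m * xi α, y0 α] : E2) ∈ P m := by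
    apply hsec (i : ℤ)
    · have e1 : (2 : ℝ) * ((i : ℤ) : ℝ) * α =
          Real.pi / 2 - (α - sg m * (α / 2)) := by linarith
      rw [e1]
      show 0 ≤ Real.cos (Real.pi / 2 - (α - sg m * (α / 2))) * y0 α -
        Real.sin (Real.pi / 2 - (α - sg m * (α / 2))) * (sg m * xi α)
      rw [Real.cos_pi_div_two_sub, Real.sin_pi_div_two_sub]
      rcases hsg with h | h
      · rw [h]
        have e2 : α - 1 * (α / 2) = α / 2 := by ring
        rw [e2]
        linarith
      · rw [h]
        have e2 : α - -1 * (α / 2) = 3 * α / 2 := by ring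
        rw [e2]
        have e3 := mul_pos hs3 hy0pos
        have e4 := mul_pos hc3 hxi0
        linarith
    · have e1 : ((2 : ℝ) * ((i : ℤ) : ℝ) + 2) * α =
          (α + sg m * (α / 2)) + Real.pi / 2 := by linarith
      rw [e1]
      show 0 ≤ (sg m * xi α) * Real.sin ((α + sg m * (α / 2)) + Real.pi / 2) -
        y0 α * Real.cos ((α + sg m * (α / 2)) + Real.pi / 2)
      rw [Real.sin_add_pi_div_two, Real.cos_add_pi_div_two]
      rcases hsg with h | h
      · rw [h]
        have e2 : α + 1 * (α / 2) = 3 * α / 2 := by ring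
        rw [e2]
        have e3 := mul_pos hs3 hy0pos
        have e4 := mul_pos hc3 hxi0
        linarith
      · rw [h]
        have e2 : α + -1 * (α / 2) = α / 2 := by ring
        rw [e2]
        linarith
    · rw [hang]
      show Real.cos (Real.pi / 2 + sg m * (α / 2)) * (sg m * xi α) +
        Real.sin (Real.pi / 2 + sg m * (α / 2)) * y0 α ≤ Real.cos α
      rw [hcosn, hsinn]
      have e1 : sg m * sg m = 1 := by rcases hsg with h | h <;> rw [h] <;> norm_num
      have e2 : -(sg m * Real.sin (α / 2)) * (sg m * xi α) + Real.cos (α / 2) * y0 α =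
          -(Real.sin (α / 2) * xi α) * (sg m * sg m) + y0 α * Real.cos (α / 2) := by ring
      rw [e2, e1, hy0]
      linarith
  refine ⟨h0, hhalf, ?_, hmem, ?_⟩
  · intro x hx
    have e1 := htop x hx
    have hx2 : rfl2 x ∈ P m := by
      rw [← hrfl]
      exact mem_image_of_mem _ hx
    have e2 := htop _ hx2
    have e3 : (rfl2 x) 0 = x 0 := rfl
    have e4 : (rfl2 x) 1 = -x 1 := rfl
    rw [e3, e4] at e2
    rcases abs_cases (x 1) with ⟨h, _⟩ | ⟨h, _⟩ <;> rw [h] <;> assumption
  · rw [← hrfl]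
    refine ⟨_, hmem, ?_⟩
    rfl

end Pool.Agent.W2helper88.QD
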